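import Mathlib

/-!
# ANO, abstract core: the setting

`X` is the universal cover of the closed manifold `M`, with a proper metric invariant under the
deck group `𝒢`; `F` is a lift of the Anosov diffeomorphism, `F0` the lift of the model map (product
of pseudo-Anosov maps and a hyperbolic automorphism of a torus) which induces the same
automorphism of the deck group.  `DU`, `DS` are the unstable and the stable pseudo-distance of the
model.  `MP_5e77d9_an`, blueprint `/team-store/ANO_Proof.md`.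
-/

set_option autoImplicit false

open Set Filter Topology

namespace Pool.Agent.ANO.Core

structure Setup (X : Type) [MetricSpace X] [ProperSpace X] where
  /-- the deck group -/
  𝒢 : Subgroup (X ≃ᵢ X)
  /-- lift of the Anosov diffeomorphism -/
  F : X ≃ₜ X
  /-- lift of the model map -/
  F0 : X ≃ₜ X
  conj : ∀ g ∈ 𝒢, ∃ g' ∈ 𝒢, (∀ x, F (g x) = g' (F x)) ∧ ∀ x, F0 (g x) = g' (F0 x)
  conj' : ∀ g' ∈ 𝒢, ∃ g ∈ 𝒢, (∀ x, F (g x) = g' (F x)) ∧ ∀ x, F0 (g x) = g' (F0 x)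
  cocompact : ∃ K : Set X, IsCompact K ∧ ∀ x, ∃ g ∈ 𝒢, g x ∈ K
  near : ∃ C : ℝ, ∀ x, dist (F x) (F0 x) ≤ C
  near' : ∃ C : ℝ, ∀ x, dist (F.symm x) (F0.symm x) ≤ C
  DU : X → X → ℝ
  DS : X → X → ℝ
  DU_nonneg : ∀ x y, 0 ≤ DU x y
  DS_nonneg : ∀ x y, 0 ≤ DS x y
  DU_symm : ∀ x y, DU x y = DU y x
  DS_symm : ∀ x y, DS x y = DS y x
  DU_triangle : ∀ x y z, DU x z ≤ DU x y + DU y z
  DS_triangle : ∀ x y z, DS x z ≤ DS x y + DS y z
  DU_inv : ∀ g ∈ 𝒢, ∀ x y, DU (g x) (g y) = DU x y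
  DS_inv : ∀ g ∈ 𝒢, ∀ x y, DS (g x) (g y) = DS x y
  lam : ℝ
  one_lt_lam : 1 < lam
  DU_expand : ∀ x y, lam * DU x y ≤ DU (F0 x) (F0 y)
  DS_expand : ∀ x y, lam * DS x y ≤ DS (F0.symm x) (F0.symm y)
  upper : ∀ R : ℝ, ∃ C : ℝ, ∀ x y, dist x y ≤ R → DU x y ≤ C ∧ DS x y ≤ C
  proper : ∀ R : ℝ, ∃ C : ℝ, ∀ x y, DU x y ≤ R → DS x y ≤ R → dist x y ≤ C
  eq_of_zero : ∀ x y, DU x y = 0 → DS x y = 0 → x = y
  /-- expansivity constant of `F` on `X` -/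
  e0 : ℝ
  e0_pos : 0 < e0
  expansive : ∀ x y, (∀ j : ℤ, dist ((F ^ j) x) ((F ^ j) y) ≤ e0) → x = y
  shadowing : ∀ ε > 0, ∃ δ > 0, ∀ x : ℤ → X, (∀ j, dist (F (x j)) (x (j + 1)) ≤ δ) →
    ∃ y, ∀ j : ℤ, dist ((F ^ j) y) (x j) ≤ ε
  /-- the Nielsen class of a fixed point of a lift of a power of the Anosov map is essential -/
  index : ∀ g ∈ 𝒢, ∀ m : ℕ, 0 < m → ∀ q, g ((F ^ m) q) = q → ∃ z, g ((F0 ^ m) z) = z

variable {X : Type} [MetricSpace X] [ProperSpace X]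

namespace Setup

variable (S : Setup X)

/-- `x` (for `F`) and `z` (for `F0`) shadow each other. -/
def Rel (x z : X) : Prop := ∃ C : ℝ, ∀ j : ℤ, dist ((S.F ^ j) x) ((S.F0 ^ j) z) ≤ C

/-- Lifts of periodic points of the Anosov diffeomorphism. -/
def Per : Set X := {q | ∃ g ∈ S.𝒢, ∃ m : ℕ, 0 < m ∧ g ((S.F ^ m) q) = q}

open Classical in
/-- The partially defined semi-conjugacy: the point `z` with `Rel x z` (if it exists). -/
noncomputable def phi (x : X) : X := if h : ∃ z, S.Rel x z then h.choose else x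

end Setup

/-- Two labels `e` (an unstable direction) and `e'` (a stable direction) at a point with `n` prongs
are adjacent. -/
def Adj {n : ℕ} (e e' : ZMod n) : Prop := e' = e ∨ e' + 1 = e

/-- The local data at a fixed point `w` of a lift `T0 = g F0^m` of a power of the model map, over an
`n`-prong singularity, `n ≥ 3`, all of whose prongs are fixed by `T0`.  `XS e` are the open sets of
points in the unstable direction `e` from `w`, `YS e'` the points in the stable direction `e'`. -/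
structure Local (S : Setup X) where
  n : ℕ
  three_le : 3 ≤ n
  w : X
  g : X ≃ᵢ X
  mem : g ∈ S.𝒢
  m : ℕ
  m_pos : 0 < m
  fixed : g ((S.F0 ^ m) w) = w
  XS : ZMod n → Set X
  YS : ZMod n → Set X
  adj : ∀ᶠ z in 𝓝 w, ∀ e e', z ∈ XS e → z ∈ YS e' → Adj e e'
  closeX : ∃ N ∈ 𝓝 w, ∀ e, ∀ z' ∈ N, z' ∈ XS e → ∃ ε > 0, ∀ z ∈ N, S.DU z z' < ε → z ∈ XS e
  closeY : ∃ N ∈ 𝓝 w, ∀ e, ∀ z' ∈ N, z' ∈ YS e → ∃ ε > 0, ∀ z ∈ N, S.DS z z' < ε → z ∈ YS e
  invX : ∀ᶠ z in 𝓝 w, ∀ e, z ∈ XS e ↔ g ((S.F0 ^ m) z) ∈ XS e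
  invY : ∀ᶠ z in 𝓝 w, ∀ e, z ∈ YS e ↔ g ((S.F0 ^ m) z) ∈ YS e
  /-- `T^j`, `T = g F^m`, has at most `n - 1` fixed points -/
  count : ∀ j : ℕ, 0 < j → {q : X | (fun x => g ((S.F ^ m) x))^[j] q = q}.encard ≤ (n - 1 : ℕ)
  /-- every quadrant contains model periodic points arbitrarily close to `w` whose Nielsen class
  is essential -/
  dense : ∀ e e', Adj e e' → ∀ V ∈ 𝓝 w, ∃ z ∈ V, z ∈ XS e ∧ z ∈ YS e' ∧
    ∃ g' ∈ S.𝒢, ∃ m' : ℕ, 0 < m' ∧ g' ((S.F0 ^ m') z) = z ∧ ∃ q, g' ((S.F ^ m') q) = q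

end Pool.Agent.ANO.Core
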