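import Pool.Agent.ANO.Core.Closing

/-!
# ANO, abstract core: periodic shadowing (C3) and closing lemma (C4)

Package.  Both follow from `S.closing`.

Proof of `closing_orbit` (C4).  `δ` from `S.closing`.  Let `dist (g (F^m x)) x ≤ δ`.  Apply `closing`
with `p = m`, `y i = F^i x`, `h = g⁻¹`: `dist (F (y i)) (y (i+1)) = 0`, and
`dist (F (y (m-1))) (g⁻¹ (y 0)) = dist (F^m x) (g⁻¹ x) = dist (g (F^m x)) x ≤ δ`.  The point `c`
satisfies `F^m c = g⁻¹ c`, so `g (F^m c) = c`.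

Proof of `per_shadow` (C3).  `δ` from `S.closing ε`.  Let `a, b ∈ Per`, `dist a b ≤ δ`, `J` given:
`ga (F^ma a) = a`, `gb (F^mb b) = b`.  Let `m = ma * mb * (J + 1)`, so `m > J`, `m > 0`.  By
`S.iter` there are `u, v ∈ 𝒢` with `F^m a = u a`, `F^m b = v b`.
Let `u'` be such that `F^m (u x) = u' (F^m x)` (`S.conj_zpow`).  Apply `closing` with `p = 2 m`,
`y i = F^i a` for `i < m`, `y i = F^(i - m) (u b)` for `m ≤ i` (natural subtraction is fine), and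
`h = u' v`.  Then `dist (F (y i)) (y (i+1)) = 0` for `i + 1 < m` and for `m ≤ i`,
for `i + 1 = m`: `dist (F^m a) (u b) = dist (u a) (u b) ≤ δ`; at the end
`F (y (2m-1)) = F^m (u b) = u' (F^m b) = u' (v b) = h b`, `dist (h b) (h a) ≤ δ`.
So there is `c`, `F^(2m) c = h c` (so `c ∈ Per` with `h⁻¹`, `2 m`), `dist (F^i c) (y i) ≤ ε` for
`i < 2m`.  Forward: for `j ≤ J < m` take `i = j`.  Backward: for `0 < j ≤ J`, `i = 2m - j ≥ m`:
`F^(2m-j) c = F^(-j) (h c)`, `y i = F^(m-j) (u b) = F^(-j) (F^m (u b)) = F^(-j) (h b)`, so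
`dist (F^(-j) c) (F^(-j) b) = dist (F^(-j) (h c)) (F^(-j) (h b)) ≤ ε` (`S.dist_zpow`).
-/

set_option autoImplicit false

open Set Filter Topology

namespace Pool.Agent.ANO.Core.Setup

variable {X : Type} [MetricSpace X] [ProperSpace X] (S : Setup X)

omit [ProperSpace X] in
private theorem pow_succ_app (H : X ≃ₜ X) (i : ℕ) (x : X) : H ((H ^ i) x) = (H ^ (i + 1)) x := by
  rw [pow_succ']
  rfl

omit [ProperSpace X] in
private theorem pow_sub_app (H : X ≃ₜ X) {n j : ℕ} (hj : j ≤ n) (x : X) :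
    (H ^ (n - j)) x = (H ^ (-(j : ℤ))) ((H ^ n) x) := by
  change _ = (H ^ (-(j : ℤ)) * H ^ n) x
  have h : H ^ (n - j) = H ^ (-(j : ℤ)) * H ^ n := by
    rw [← zpow_natCast H n, ← zpow_add, ← zpow_natCast H (n - j)]
    congr 1
    omega
  rw [h]

omit [ProperSpace X] in
private theorem inv_app (g : X ≃ᵢ X) (x : X) : g⁻¹ (g x) = x := g.symm_apply_apply x

omit [ProperSpace X] in
private theorem app_inv (g : X ≃ᵢ X) (x : X) : g (g⁻¹ x) = x := g.apply_symm_apply x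

theorem closing_orbit {ε : ℝ} (hε : 0 < ε) : ∃ δ > 0, ∀ g ∈ S.𝒢, ∀ m : ℕ, 0 < m → ∀ x : X,
    dist (g ((S.F ^ m) x)) x ≤ δ →
    ∃ c, g ((S.F ^ m) c) = c ∧ ∀ i < m, dist ((S.F ^ i) c) ((S.F ^ i) x) ≤ ε := by
  obtain ⟨δ, hδ, H⟩ := S.closing hε
  refine ⟨δ, hδ, fun g hg m hm x hx => ?_⟩
  obtain ⟨c, hc, hcl⟩ := H m hm (fun i => (S.F ^ i) x) g⁻¹ (S.𝒢.inv_mem hg) (fun i _ => by
      rw [pow_succ_app, dist_self]
      exact hδ.le) (by
      rw [pow_succ_app, Nat.sub_add_cancel hm, ← g.dist_eq, app_inv]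
      exact hx)
  exact ⟨c, by rw [hc, app_inv], hcl⟩

/-- a power of the period acts on the point as a deck element -/
private theorem per_pow {a : X} {g : X ≃ᵢ X} (hg : g ∈ S.𝒢) {m : ℕ} (h : g ((S.F ^ m) a) = a)
    (j : ℕ) : ∃ u ∈ S.𝒢, (S.F ^ (m * j)) a = u a := by
  obtain ⟨gj, hgj, h1, _⟩ := S.iter hg m j
  have h2 : (fun x => g ((S.F ^ m) x))^[j] a = a := Function.iterate_fixed h j
  rw [h1 a] at h2
  refine ⟨gj⁻¹, S.𝒢.inv_mem hgj, ?_⟩
  conv_rhs => rw [← h2]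
  rw [inv_app]

theorem per_shadow {ε : ℝ} (hε : 0 < ε) : ∃ δ > 0, ∀ a ∈ S.Per, ∀ b ∈ S.Per, dist a b ≤ δ →
    ∀ J : ℕ, ∃ c ∈ S.Per,
      (∀ j : ℕ, j ≤ J → dist ((S.F ^ (j : ℤ)) c) ((S.F ^ (j : ℤ)) a) ≤ ε) ∧
      ∀ j : ℕ, 0 < j → j ≤ J → dist ((S.F ^ (-(j : ℤ))) c) ((S.F ^ (-(j : ℤ))) b) ≤ ε := by
  obtain ⟨δ, hδ, H⟩ := S.closing hε
  refine ⟨δ, hδ, fun a ha b hb hab J => ?_⟩
  obtain ⟨ga, hga, ma, hma, hfa⟩ := ha
  obtain ⟨gb, hgb, mb, hmb, hfb⟩ := hb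
  obtain ⟨u, hu, hua⟩ := S.per_pow hga hfa (mb * (J + 1))
  obtain ⟨v, hv, hvb⟩ := S.per_pow hgb hfb (ma * (J + 1))
  have hm' : mb * (ma * (J + 1)) = ma * (mb * (J + 1)) := by ring
  rw [hm'] at hvb
  obtain ⟨m, hm⟩ : ∃ m, m = ma * (mb * (J + 1)) := ⟨_, rfl⟩
  rw [← hm] at hua hvb
  have hJ : J + 1 ≤ m := by
    rw [hm]
    calc J + 1 = 1 * (1 * (J + 1)) := by ring
      _ ≤ ma * (mb * (J + 1)) := Nat.mul_le_mul hma (Nat.mul_le_mul hmb le_rfl)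
  obtain ⟨u', hu', hconj, _⟩ := S.conj_zpow hu (m : ℤ)
  rw [zpow_natCast] at hconj
  let y : ℕ → X := fun i => if i < m then (S.F ^ i) a else (S.F ^ (i - m)) (u b)
  have hy1 : ∀ i, i < m → y i = (S.F ^ i) a := fun i hi => if_pos hi
  have hy2 : ∀ i, m ≤ i → y i = (S.F ^ (i - m)) (u b) := fun i hi => if_neg (not_lt.2 hi)
  have hmul : ∀ x, (u' * v) x = u' (v x) := fun x => rfl
  have hend : (S.F ^ m) (u b) = (u' * v) b := by rw [hconj, hvb, hmul]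
  obtain ⟨c, hc, hcl⟩ := H (2 * m) (by omega) y (u' * v) (S.𝒢.mul_mem hu' hv) (fun i hi => by
      rcases lt_trichotomy (i + 1) m with h1 | h1 | h1
      · rw [hy1 i (by omega), hy1 (i + 1) h1, pow_succ_app, dist_self]
        exact hδ.le
      · have h2 : (S.F ^ 0) (u b) = u b := rfl
        rw [hy1 i (by omega), hy2 (i + 1) (by omega), pow_succ_app, h1, hua, Nat.sub_self, h2,
          u.dist_eq]
        exact hab
      · rw [hy2 i (by omega), hy2 (i + 1) (by omega), pow_succ_app,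
          show i - m + 1 = i + 1 - m by omega, dist_self]
        exact hδ.le) (by
      have h2 : (S.F ^ 0) a = a := rfl
      rw [hy2 (2 * m - 1) (by omega), hy1 0 (by omega), pow_succ_app,
        show 2 * m - 1 - m + 1 = m by omega, hend, h2, (u' * v).dist_eq, dist_comm]
      exact hab)
  refine ⟨c, ⟨(u' * v)⁻¹, S.𝒢.inv_mem (S.𝒢.mul_mem hu' hv), 2 * m, by omega, ?_⟩, ?_, ?_⟩
  · rw [hc, inv_app]
  · intro j hj
    have h1 := hcl j (by omega)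
    rw [hy1 j (by omega)] at h1
    rw [zpow_natCast]
    exact h1
  · intro j hj0 hj
    have h1 := hcl (2 * m - j) (by omega)
    rw [hy2 _ (by omega), show 2 * m - j - m = m - j by omega, pow_sub_app _ (by omega : j ≤ 2 * m),
      pow_sub_app _ (by omega : j ≤ m), hc, hend,
      S.dist_zpow (S.𝒢.mul_mem hu' hv)] at h1
    exact h1

end Pool.Agent.ANO.Core.Setup
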