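import Pool.Agent.ANO.Core.Dir
import Pool.Agent.ANO.Core.PerShadow

/-!
# ANO, abstract core: directions at a point of `K0` are adjacent, step (4)

Package.

Proofs.
* `adj_of` (4): let `b ∈ K0`, `e ∈ UX b`, `e' ∈ UY b`. Let `N` be the intersection of the
  neighbourhoods of `w` in `L.adj`, `L.closeX`, `L.closeY`. There is `η > 0` such that `x ∈
  closure Per`, `dist x b < η` implies `phi x ∈ N`. Let `ε = η/4` and `δ ≤ η/4` from
  `S.per_shadow ε` (take the minimum). Choose `a ∈ Per`, `phi a ∈ XS e`, `dist a b < δ/2`, and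
  `a' ∈ Per`, `phi a' ∈ YS e'`, `dist a' b < δ/2`. Then `dist a a' ≤ δ`, and `phi a, phi a' ∈
  N`. `closeX` for `z' = phi a` gives `εa > 0`, `closeY` for `z' = phi a'` gives `εa' > 0`. Let
  `C1` be from `S.dist_phi`, `C, C'` from `S.stretchU (2 C1 + ε)`, `S.stretchS (2 C1 + ε)`.
  Choose `J ≥ 1` with `C < lam^J εa`, `C' < lam^J εa'` (`tendsto_pow_atTop_atTop_of_one_lt`).
  Let `c ∈ Per` be from `per_shadow` (forward `a`, backward `a'`). `dist c b ≤ dist c a + dist a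
  b < η`, so `phi c ∈ N`. `dist (F0^J (phi c)) (F0^J (phi a)) ≤ C1 + dist (F^J c) (F^J a) + C1 ≤
  2 C1 + ε`, so `lam^J DU (phi c) (phi a) ≤ C < lam^J εa`, so `phi c ∈ XS e`; similarly with
  `-J`: `phi c ∈ YS e'`. `L.adj` at `phi c` gives `Adj e e'`.
-/

set_option autoImplicit false

open Set Filter Topology

namespace Pool.Agent.ANO.Core

variable {X : Type} [MetricSpace X] [ProperSpace X] {S : Setup X}

namespace Local

variable (L : Local S)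

theorem adj_of {b : X} (hb : b ∈ L.K0) {e e' : ZMod L.n} (he : e ∈ L.UX b) (he' : e' ∈ L.UY b) :
    Adj e e' := by
  obtain ⟨N1, hN1, hX⟩ := L.closeX
  obtain ⟨N2, hN2, hY⟩ := L.closeY
  have hadj := L.adj
  have hev := L.eventually_phi hb (Filter.inter_mem (Filter.inter_mem hadj hN1) hN2)
  obtain ⟨η, hη, hηN⟩ := Metric.eventually_nhds_iff.1 hev
  obtain ⟨δ0, hδ0, hsh⟩ := S.per_shadow (ε := η / 4) (by positivity)
  obtain ⟨δ, hδ, hδ1, hδ2⟩ : ∃ δ > 0, δ ≤ δ0 ∧ δ ≤ η / 4 :=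
    ⟨min δ0 (η / 4), lt_min hδ0 (by positivity), min_le_left _ _, min_le_right _ _⟩
  obtain ⟨a, ⟨haP, haX⟩, hab⟩ :=
    (Filter.Frequently.and_eventually he (Metric.ball_mem_nhds b (half_pos hδ))).exists
  obtain ⟨a', ⟨haP', haY⟩, hab'⟩ :=
    (Filter.Frequently.and_eventually he' (Metric.ball_mem_nhds b (half_pos hδ))).exists
  have hab1 : dist a b < δ / 2 := hab
  have hab2 : dist a' b < δ / 2 := hab'
  have haa : dist a a' ≤ δ0 := by
    have := dist_triangle_right a a' b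
    linarith
  have hNa := hηN (y := a) (by linarith) (subset_closure haP)
  have hNa' := hηN (y := a') (by linarith) (subset_closure haP')
  obtain ⟨εa, hεa, hεX⟩ := hX e (S.phi a) hNa.1.2 haX
  obtain ⟨εb, hεb, hεY⟩ := hY e' (S.phi a') hNa'.2 haY
  obtain ⟨C1, hC1⟩ := S.dist_phi
  obtain ⟨C, hC⟩ := S.stretchU (2 * C1 + η / 4)
  obtain ⟨C', hC'⟩ := S.stretchS (2 * C1 + η / 4)
  obtain ⟨J0, hJ0⟩ := pow_unbounded_of_one_lt (max (C / εa) (C' / εb)) S.one_lt_lam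
  have hJ : max (C / εa) (C' / εb) < S.lam ^ (J0 + 1) :=
    lt_of_lt_of_le hJ0 (pow_le_pow_right₀ S.one_lt_lam.le (Nat.le_succ J0))
  have hJa : C < S.lam ^ (J0 + 1) * εa := by
    rw [← div_lt_iff₀ hεa]
    exact lt_of_le_of_lt (le_max_left _ _) hJ
  have hJb : C' < S.lam ^ (J0 + 1) * εb := by
    rw [← div_lt_iff₀ hεb]
    exact lt_of_le_of_lt (le_max_right _ _) hJ
  have hpow : 0 < S.lam ^ (J0 + 1) := pow_pos (lt_trans one_pos S.one_lt_lam) _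
  obtain ⟨c, hcP, hcf, hcb⟩ := hsh a haP a' haP' haa (J0 + 1)
  have hca : dist c a ≤ η / 4 := by
    have h0 := hcf 0 (Nat.zero_le _)
    simpa using h0
  have hcb1 : dist c b < η := by
    have := dist_triangle c a b
    linarith
  have hNc := hηN (y := c) hcb1 (subset_closure hcP)
  have h1 : dist ((S.F0 ^ (((J0 + 1 : ℕ)) : ℤ)) (S.phi c))
      ((S.F0 ^ (((J0 + 1 : ℕ)) : ℤ)) (S.phi a)) ≤ 2 * C1 + η / 4 := by
    have h2 := hC1 c (subset_closure hcP) (((J0 + 1 : ℕ)) : ℤ)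
    have h3 := hC1 a (subset_closure haP) (((J0 + 1 : ℕ)) : ℤ)
    have h4 := hcf (J0 + 1) le_rfl
    rw [dist_comm] at h2
    have h5 := dist_triangle4 ((S.F0 ^ (((J0 + 1 : ℕ)) : ℤ)) (S.phi c))
      ((S.F ^ (((J0 + 1 : ℕ)) : ℤ)) c) ((S.F ^ (((J0 + 1 : ℕ)) : ℤ)) a)
      ((S.F0 ^ (((J0 + 1 : ℕ)) : ℤ)) (S.phi a))
    linarith
  have h1' : dist ((S.F0 ^ (-((J0 + 1 : ℕ) : ℤ))) (S.phi c))
      ((S.F0 ^ (-((J0 + 1 : ℕ) : ℤ))) (S.phi a')) ≤ 2 * C1 + η / 4 := by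
    have h2 := hC1 c (subset_closure hcP) (-((J0 + 1 : ℕ) : ℤ))
    have h3 := hC1 a' (subset_closure haP') (-((J0 + 1 : ℕ) : ℤ))
    have h4 := hcb (J0 + 1) (Nat.succ_pos _) le_rfl
    rw [dist_comm] at h2
    have h5 := dist_triangle4 ((S.F0 ^ (-((J0 + 1 : ℕ) : ℤ))) (S.phi c))
      ((S.F ^ (-((J0 + 1 : ℕ) : ℤ))) c) ((S.F ^ (-((J0 + 1 : ℕ) : ℤ))) a')
      ((S.F0 ^ (-((J0 + 1 : ℕ) : ℤ))) (S.phi a'))
    linarith
  have hXc : S.phi c ∈ L.XS e := by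
    apply hεX _ hNc.1.2
    have h2 := lt_of_le_of_lt (hC (J0 + 1) _ _ h1) hJa
    exact lt_of_mul_lt_mul_left h2 hpow.le
  have hYc : S.phi c ∈ L.YS e' := by
    apply hεY _ hNc.2
    have h2 := lt_of_le_of_lt (hC' (J0 + 1) _ _ h1') hJb
    exact lt_of_mul_lt_mul_left h2 hpow.le
  exact hNc.1.1 e e' hXc hYc

end Local

end Pool.Agent.ANO.Core
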