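import Pool.Agent.ANO.Core.Setup

/-!
# ANO, abstract core: elementary facts on the setting

Package.  `X` proper metric space, `𝒢` group of isometries acting cocompactly, `F`, `F0`
homeomorphisms which normalise `𝒢` in the same way.

Proofs.
* `conj_zpow`: induction on `j`; for `j ≥ 0` with `S.conj`; one step down: let `g ∈ 𝒢`, by
  `S.conj'` there is `g1 ∈ 𝒢` with `F (g1 x) = g (F x)`, `F0 (g1 x) = g (F0 x)`, so
  `F⁻¹ (g y) = g1 (F⁻¹ y)`.  (`Int.induction_on`, `zpow_add_one`, `zpow_sub_one`,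
  `Homeomorph` group: `(F * G) x = F (G x)`, `F⁻¹ = F.symm`.)
* `conj_zpow'`: apply `conj_zpow` to `g'` and `-j`: `F^(-j) (g' y) = g (F^(-j) y)`; put
  `y = F^j x` and apply `F^j`.
* `iter`: induction on `j`:
  `T^[j+1] x = T (T^[j] x) = g (F^m (gj (F^(m j) x))) = g gj' (F^m (F^(m j) x))`.
* `coarse`: `K` as in `S.cocompact`; `K' = Metric.cthickening R K` (or the union of the closed
  balls) is compact in the proper space `X`, so `H '' K'` is bounded: `C = diam`.  If `dist x y ≤ R`,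
  take `g ∈ 𝒢` with `g x ∈ K`, then `g y ∈ K'`, `dist (H x) (H y) = dist (g' (H x)) (g' (H y))
  = dist (H (g x)) (H (g y)) ≤ C`.
* `unifCont`: the same with `R = 1`: `H` is uniformly continuous on the compact set `K'`
  (`IsCompact.uniformContinuousOn_of_continuous`).
* `dist_zpow`: from `conj_zpow`.
-/

set_option autoImplicit false

open Set Filter Topology

namespace Pool.Agent.ANO.Core.Setup

variable {X : Type} [MetricSpace X] [ProperSpace X] (S : Setup X)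

theorem conj_zpow {g : X ≃ᵢ X} (hg : g ∈ S.𝒢) (j : ℤ) :
    ∃ g' ∈ S.𝒢, (∀ x, (S.F ^ j) (g x) = g' ((S.F ^ j) x)) ∧
      ∀ x, (S.F0 ^ j) (g x) = g' ((S.F0 ^ j) x) := by
  induction j using Int.induction_on generalizing g with
  | zero => exact ⟨g, hg, fun x => by simp, fun x => by simp⟩
  | succ j ih =>
    obtain ⟨g1, hg1, h1, h1'⟩ := S.conj g hg
    obtain ⟨g2, hg2, h2, h2'⟩ := ih hg1
    refine ⟨g2, hg2, fun x => ?_, fun x => ?_⟩
    · rw [zpow_add_one]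
      change (S.F ^ (j : ℤ)) (S.F (g x)) = g2 ((S.F ^ (j : ℤ)) (S.F x))
      rw [h1, h2]
    · rw [zpow_add_one]
      change (S.F0 ^ (j : ℤ)) (S.F0 (g x)) = g2 ((S.F0 ^ (j : ℤ)) (S.F0 x))
      rw [h1', h2']
  | pred j ih =>
    obtain ⟨g1, hg1, h1, h1'⟩ := S.conj' g hg
    obtain ⟨g2, hg2, h2, h2'⟩ := ih hg1
    refine ⟨g2, hg2, fun x => ?_, fun x => ?_⟩
    · rw [zpow_sub_one]
      change (S.F ^ (-(j : ℤ))) (S.F.symm (g x)) = g2 ((S.F ^ (-(j : ℤ))) (S.F.symm x))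
      have h3 : S.F.symm (g x) = g1 (S.F.symm x) := by
        rw [Homeomorph.symm_apply_eq, h1, Homeomorph.apply_symm_apply]
      rw [h3, h2]
    · rw [zpow_sub_one]
      change (S.F0 ^ (-(j : ℤ))) (S.F0.symm (g x)) = g2 ((S.F0 ^ (-(j : ℤ))) (S.F0.symm x))
      have h3 : S.F0.symm (g x) = g1 (S.F0.symm x) := by
        rw [Homeomorph.symm_apply_eq, h1', Homeomorph.apply_symm_apply]
      rw [h3, h2']

omit [ProperSpace X] in
private theorem zpow_zpow_neg (H : X ≃ₜ X) (j : ℤ) (x : X) : (H ^ j) ((H ^ (-j)) x) = x := by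
  change (H ^ j * H ^ (-j)) x = x
  rw [← zpow_add, add_neg_cancel, zpow_zero]
  rfl

omit [ProperSpace X] in
private theorem zpow_neg_zpow (H : X ≃ₜ X) (j : ℤ) (x : X) : (H ^ (-j)) ((H ^ j) x) = x := by
  change (H ^ (-j) * H ^ j) x = x
  rw [← zpow_add, neg_add_cancel, zpow_zero]
  rfl

theorem conj_zpow' {g' : X ≃ᵢ X} (hg : g' ∈ S.𝒢) (j : ℤ) :
    ∃ g ∈ S.𝒢, (∀ x, (S.F ^ j) (g x) = g' ((S.F ^ j) x)) ∧
      ∀ x, (S.F0 ^ j) (g x) = g' ((S.F0 ^ j) x) := by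
  obtain ⟨g, hg1, h1, h2⟩ := S.conj_zpow hg (-j)
  refine ⟨g, hg1, fun x => ?_, fun x => ?_⟩
  · have h := h1 ((S.F ^ j) x)
    rw [zpow_neg_zpow] at h
    rw [← h, zpow_zpow_neg]
  · have h := h2 ((S.F0 ^ j) x)
    rw [zpow_neg_zpow] at h
    rw [← h, zpow_zpow_neg]

theorem iter {g : X ≃ᵢ X} (hg : g ∈ S.𝒢) (m j : ℕ) :
    ∃ gj ∈ S.𝒢, (∀ x, (fun x => g ((S.F ^ m) x))^[j] x = gj ((S.F ^ (m * j)) x)) ∧
      ∀ x, (fun x => g ((S.F0 ^ m) x))^[j] x = gj ((S.F0 ^ (m * j)) x) := by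
  induction j with
  | zero => exact ⟨1, S.𝒢.one_mem, fun x => by simp, fun x => by simp⟩
  | succ j ih =>
    obtain ⟨g1, hg1, h1, h2⟩ := ih
    obtain ⟨g2, hg2, h3, h4⟩ := S.conj_zpow hg1 (m : ℤ)
    refine ⟨g * g2, S.𝒢.mul_mem hg hg2, fun x => ?_, fun x => ?_⟩
    · rw [Function.iterate_succ_apply', h1]
      have h5 := h3 ((S.F ^ (m * j)) x)
      rw [zpow_natCast] at h5
      have h6 : (S.F ^ (m * (j + 1))) x = (S.F ^ m) ((S.F ^ (m * j)) x) := by
        rw [Nat.mul_succ, Nat.add_comm, pow_add]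
        rfl
      rw [h6]
      change g ((S.F ^ m) (g1 ((S.F ^ (m * j)) x))) = g (g2 ((S.F ^ m) ((S.F ^ (m * j)) x)))
      rw [h5]
    · rw [Function.iterate_succ_apply', h2]
      have h5 := h4 ((S.F0 ^ (m * j)) x)
      rw [zpow_natCast] at h5
      have h6 : (S.F0 ^ (m * (j + 1))) x = (S.F0 ^ m) ((S.F0 ^ (m * j)) x) := by
        rw [Nat.mul_succ, Nat.add_comm, pow_add]
        rfl
      rw [h6]
      change g ((S.F0 ^ m) (g1 ((S.F0 ^ (m * j)) x))) =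
        g (g2 ((S.F0 ^ m) ((S.F0 ^ (m * j)) x)))
      rw [h5]

/-- `H` normalises the deck group. -/
def Normal (H : X ≃ₜ X) : Prop := ∀ g ∈ S.𝒢, ∃ g' ∈ S.𝒢, ∀ x, H (g x) = g' (H x)

theorem normal_F (j : ℤ) : S.Normal (S.F ^ j) := by
  intro g hg
  obtain ⟨g', hg', h1, _⟩ := S.conj_zpow hg j
  exact ⟨g', hg', h1⟩

theorem normal_F0 (j : ℤ) : S.Normal (S.F0 ^ j) := by
  intro g hg
  obtain ⟨g', hg', _, h1⟩ := S.conj_zpow hg j
  exact ⟨g', hg', h1⟩

theorem coarse {H : X ≃ₜ X} (hH : S.Normal H) (R : ℝ) :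
    ∃ C : ℝ, ∀ x y, dist x y ≤ R → dist (H x) (H y) ≤ C := by
  obtain ⟨K, hK, hKc⟩ := S.cocompact
  have hK' : IsCompact (Metric.cthickening R K) := hK.cthickening
  obtain ⟨C, hC⟩ := Metric.isBounded_iff.1 (hK'.image H.continuous).isBounded
  refine ⟨C, fun x y hxy => ?_⟩
  obtain ⟨g, hg, hgx⟩ := hKc x
  obtain ⟨g', _, h⟩ := hH g hg
  have h1 : g x ∈ Metric.cthickening R K := Metric.self_subset_cthickening K hgx
  have h2 : g y ∈ Metric.cthickening R K := by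
    refine Metric.mem_cthickening_of_dist_le (g y) (g x) R K hgx ?_
    rw [g.dist_eq, dist_comm]
    exact hxy
  have h3 := hC (mem_image_of_mem H h1) (mem_image_of_mem H h2)
  rw [h, h, g'.dist_eq] at h3
  exact h3

theorem unifCont {H : X ≃ₜ X} (hH : S.Normal H) : UniformContinuous H := by
  obtain ⟨K, hK, hKc⟩ := S.cocompact
  have hK' : IsCompact (Metric.cthickening 1 K) := hK.cthickening
  have hu := hK'.uniformContinuousOn_of_continuous H.continuous.continuousOn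
  rw [Metric.uniformContinuousOn_iff] at hu
  rw [Metric.uniformContinuous_iff]
  intro ε hε
  obtain ⟨δ, hδ, hd⟩ := hu ε hε
  refine ⟨min δ 1, lt_min hδ one_pos, fun {x y} hxy => ?_⟩
  obtain ⟨g, hg, hgx⟩ := hKc x
  obtain ⟨g', _, h⟩ := hH g hg
  have h1 : g x ∈ Metric.cthickening 1 K := Metric.self_subset_cthickening K hgx
  have h2 : g y ∈ Metric.cthickening 1 K := by
    refine Metric.mem_cthickening_of_dist_le (g y) (g x) 1 K hgx ?_
    rw [g.dist_eq, dist_comm]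
    exact (lt_of_lt_of_le hxy (min_le_right _ _)).le
  have h3 := hd (g x) h1 (g y) h2 (by
    rw [g.dist_eq]
    exact lt_of_lt_of_le hxy (min_le_left _ _))
  rw [h, h, g'.dist_eq] at h3
  exact h3

theorem dist_zpow {g : X ≃ᵢ X} (hg : g ∈ S.𝒢) (j : ℤ) (x y : X) :
    dist ((S.F ^ j) (g x)) ((S.F ^ j) (g y)) = dist ((S.F ^ j) x) ((S.F ^ j) y) := by
  obtain ⟨g', _, h, _⟩ := S.conj_zpow hg j
  rw [h, h, g'.dist_eq]

end Pool.Agent.ANO.Core.Setup
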