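import Pool.Agent.ANO.Core.LocalBasic

/-!
# ANO, abstract core: directions at the points of `K0`, step (3)

Package.  `UX b` is the set of unstable directions `e` such that every neighbourhood of `b`
contains a lift `a` of a periodic point with `phi a ∈ XS e`; `UY b` the same for stable directions.

Proofs.
* `eventually_phi`: for `b ∈ K0` and a neighbourhood `N` of `w`, for all `a ∈ Per` close to `b`:
  `phi a ∈ N` (`continuousOn_phi`, `subset_closure`, `phi b = w`).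
* `UX_T` (3): `e ∈ UX b → e ∈ UX (T b)`: frequently (in `𝓝 b`) `a ∈ Per`, `phi a ∈ XS e`; eventually for
  `a ∈ Per` near `b`: `phi a` is in the neighbourhood of `w` of `L.invX`; so frequently `T a ∈ Per` and
  `phi (T a) = T0 (phi a) ∈ XS e`; `map L.T (𝓝 b) = 𝓝 (T b)` (`Homeomorph.map_nhds_eq`,
  `Filter.frequently_map`).  Conversely, if `e ∈ UX (T b)`: frequently for `a'` in `𝓝 (T b)`, `a' ∈ Per`,
  `phi a' ∈ XS e`; write `a' = T a` (`a` in `𝓝 b`, `a ∈ Per` by `Tsymm_per`), `phi a' = T0 (phi a)`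
  and `invX` at `phi a` (near `w`) gives `phi a ∈ XS e`.
* `UX_iter`: induction, `T_mem_K0`.
* `UX_of_tendsto`: if `T^[n] b → q` then `UX b ⊆ UX q`: let `e ∈ UX b`, `V` an open neighbourhood of `q`;
  some `T^[n] b ∈ V`, `e ∈ UX (T^[n] b)`, so there is `a ∈ V`, `a ∈ Per`, `phi a ∈ XS e`
  (`Filter.frequently_iff`, `IsOpen.mem_nhds`).
-/

set_option autoImplicit false

open Set Filter Topology

namespace Pool.Agent.ANO.Core

variable {X : Type} [MetricSpace X] [ProperSpace X] {S : Setup X}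

namespace Local

variable (L : Local S)

/-- Unstable directions at `b`. -/
def UX (b : X) : Set (ZMod L.n) := {e | ∃ᶠ a in 𝓝 b, a ∈ S.Per ∧ S.phi a ∈ L.XS e}

/-- Stable directions at `b`. -/
def UY (b : X) : Set (ZMod L.n) := {e | ∃ᶠ a in 𝓝 b, a ∈ S.Per ∧ S.phi a ∈ L.YS e}

theorem eventually_phi {b : X} (hb : b ∈ L.K0) {N : Set X} (hN : N ∈ 𝓝 L.w) :
    ∀ᶠ a in 𝓝 b, a ∈ closure S.Per → S.phi a ∈ N := by
  have hc := S.continuousOn_phi b hb.1
  have hN' : N ∈ 𝓝 (S.phi b) := by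
    rw [hb.2]
    exact hN
  have h := hc.tendsto.eventually hN'
  rw [eventually_nhdsWithin_iff] at h
  exact h

private theorem ev_invX {b : X} (hb : b ∈ L.K0) :
    ∀ᶠ a in 𝓝 b, a ∈ S.Per → ∀ e, S.phi a ∈ L.XS e ↔ S.phi (L.T a) ∈ L.XS e := by
  have h := L.eventually_phi hb (N := {z | ∀ e, z ∈ L.XS e ↔ L.g ((S.F0 ^ L.m) z) ∈ L.XS e})
    L.invX
  filter_upwards [h] with a ha haP e
  have h1 := ha (subset_closure haP) e
  rw [L.phi_T (subset_closure haP)]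
  exact h1

theorem UX_T {b : X} (hb : b ∈ L.K0) : L.UX (L.T b) = L.UX b := by
  have hev := L.ev_invX hb
  have hmap : map L.T (𝓝 b) = 𝓝 (L.T b) := L.T.map_nhds_eq b
  ext e
  constructor
  · intro he
    have he' : ∃ᶠ a in 𝓝 (L.T b), a ∈ S.Per ∧ S.phi a ∈ L.XS e := he
    rw [← hmap, Filter.frequently_map] at he'
    refine (he'.and_eventually hev).mono ?_
    rintro a ⟨⟨h1, h2⟩, h3⟩
    have haP : a ∈ S.Per := by
      have h4 := L.Tsymm_per h1
      rwa [Homeomorph.symm_apply_apply] at h4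
    exact ⟨haP, (h3 haP e).2 h2⟩
  · intro he
    have he' : ∃ᶠ a in 𝓝 b, a ∈ S.Per ∧ S.phi a ∈ L.XS e := he
    change ∃ᶠ a in 𝓝 (L.T b), a ∈ S.Per ∧ S.phi a ∈ L.XS e
    rw [← hmap, Filter.frequently_map]
    refine (he'.and_eventually hev).mono ?_
    rintro a ⟨⟨h1, h2⟩, h3⟩
    exact ⟨L.T_per h1, (h3 h1 e).1 h2⟩

theorem UX_iter {b : X} (hb : b ∈ L.K0) (n : ℕ) : L.UX (L.T^[n] b) = L.UX b := by
  have key : ∀ n : ℕ, L.T^[n] b ∈ L.K0 ∧ L.UX (L.T^[n] b) = L.UX b := by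
    intro n
    induction n with
    | zero => exact ⟨hb, rfl⟩
    | succ k ih =>
      rw [Function.iterate_succ_apply']
      exact ⟨L.T_mem_K0 ih.1, (L.UX_T ih.1).trans ih.2⟩
  exact (key n).2

theorem UX_of_tendsto {b q : X} (hb : b ∈ L.K0)
    (hq : Tendsto (fun n => L.T^[n] b) atTop (𝓝 q)) : L.UX b ⊆ L.UX q := by
  intro e he
  change ∃ᶠ a in 𝓝 q, a ∈ S.Per ∧ S.phi a ∈ L.XS e
  rw [Filter.frequently_iff]
  intro U hU
  obtain ⟨V, hVU, hVo, hqV⟩ := mem_nhds_iff.1 hU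
  obtain ⟨n, hn⟩ := (hq.eventually (hVo.mem_nhds hqV)).exists
  have he' : e ∈ L.UX (L.T^[n] b) := by
    rw [L.UX_iter hb n]
    exact he
  have he'' : ∃ᶠ a in 𝓝 (L.T^[n] b), a ∈ S.Per ∧ S.phi a ∈ L.XS e := he'
  obtain ⟨a, ha, h1⟩ := (Filter.frequently_iff.1 he'') (hVo.mem_nhds hn)
  exact ⟨a, hVU ha, h1⟩

end Local

end Pool.Agent.ANO.Core
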