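import Pool.Agent.ANO.Core.Rel

/-!
# ANO, abstract core: fixed points of lifts are related, the relation is closed, (S3), (S5)

Package.

Proofs.
* `rel_of_fixed`: let `T = g F^m`, `T0 = g F0^m`, `T q = q`, `T0 z = z`.  Let
  `B = max_{0 ≤ i < m} dist (F^i q) (F0^i z)`.  For `j ∈ ℤ` write `j = m l + i`, `0 ≤ i < m`.
  Claim: for every `l ∈ ℤ` there is `h ∈ 𝒢` with `F^(m l) q = h q`, `F0^(m l) z = h z`:
  for `l ≥ 0` from `S.iter` (`T^[l] q = q`, so `F^(m l) q = g_l⁻¹ q`, and the same for `F0`, `z`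
  with the same `g_l`); for `l < 0`: `F^(m l') q = h q` implies `q = F^(-m l') (h q) =
  h' (F^(-m l') q)` (`S.conj_zpow`), so `F^(-m l') q = h'⁻¹ q`, the same for `F0`, `z`.
  Then `F^j q = F^i (h q) = h' (F^i q)`, `F0^j z = h' (F0^i z)` with the same `h'` and
  `dist (F^j q) (F0^j z) = dist (F^i q) (F0^i z) ≤ B`.
* `rel_closed`: let `C1` be as in `S.rel_bound`.  The set equals
  `⋂ j, {p | dist (F^j p.1) (F0^j p.2) ≤ C1}`, an intersection of closed sets (`isClosed_le`).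
-/

set_option autoImplicit false

open Set Filter Topology

namespace Pool.Agent.ANO.Core.Setup

variable {X : Type} [MetricSpace X] [ProperSpace X] (S : Setup X)

omit [ProperSpace X] in
private theorem zpow_add_apply_Fixed (F : X ≃ₜ X) (a b : ℤ) (x : X) :
    (F ^ (a + b)) x = (F ^ a) ((F ^ b) x) := by
  rw [zpow_add]
  rfl

omit [ProperSpace X] in
private theorem inv_apply_Fixed (h : X ≃ᵢ X) {x y : X} (hxy : h x = y) : x = (h⁻¹ : X ≃ᵢ X) y := by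
  rw [← hxy]
  exact (h.symm_apply_apply x).symm

private theorem shift_nat_Fixed {g : X ≃ᵢ X} (hg : g ∈ S.𝒢) {m : ℕ} {q z : X}
    (hq : g ((S.F ^ m) q) = q) (hz : g ((S.F0 ^ m) z) = z) (l : ℕ) :
    ∃ h ∈ S.𝒢, (S.F ^ ((m * l : ℕ) : ℤ)) q = h q ∧ (S.F0 ^ ((m * l : ℕ) : ℤ)) z = h z := by
  obtain ⟨gl, hgl, h1, h2⟩ := S.iter hg m l
  refine ⟨gl⁻¹, S.𝒢.inv_mem hgl, ?_, ?_⟩
  · refine inv_apply_Fixed gl ?_
    rw [zpow_natCast, ← h1 q]
    exact Function.iterate_fixed hq l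
  · refine inv_apply_Fixed gl ?_
    rw [zpow_natCast, ← h2 z]
    exact Function.iterate_fixed hz l

private theorem shift_int_Fixed {g : X ≃ᵢ X} (hg : g ∈ S.𝒢) {m : ℕ} {q z : X}
    (hq : g ((S.F ^ m) q) = q) (hz : g ((S.F0 ^ m) z) = z) (l : ℤ) :
    ∃ h ∈ S.𝒢, (S.F ^ ((m : ℤ) * l)) q = h q ∧ (S.F0 ^ ((m : ℤ) * l)) z = h z := by
  obtain ⟨k, rfl | rfl⟩ := Int.eq_nat_or_neg l
  · obtain ⟨h, hh, h1, h2⟩ := S.shift_nat_Fixed hg hq hz k
    refine ⟨h, hh, ?_, ?_⟩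
    · rw [← h1]
      push_cast
      rfl
    · rw [← h2]
      push_cast
      rfl
  · obtain ⟨h, hh, h1, h2⟩ := S.shift_nat_Fixed hg hq hz k
    obtain ⟨h', hh', h3, h4⟩ := S.conj_zpow hh (-((m * k : ℕ) : ℤ))
    have e : (m : ℤ) * (-(k : ℤ)) = -((m * k : ℕ) : ℤ) := by
      push_cast
      ring
    rw [e]
    refine ⟨h'⁻¹, S.𝒢.inv_mem hh', ?_, ?_⟩
    · refine inv_apply_Fixed h' ?_
      rw [← h3 q, ← h1, ← zpow_add_apply_Fixed, neg_add_cancel, zpow_zero]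
      rfl
    · refine inv_apply_Fixed h' ?_
      rw [← h4 z, ← h2, ← zpow_add_apply_Fixed, neg_add_cancel, zpow_zero]
      rfl

theorem rel_of_fixed {g : X ≃ᵢ X} (hg : g ∈ S.𝒢) {m : ℕ} (hm : 0 < m) {q z : X}
    (hq : g ((S.F ^ m) q) = q) (hz : g ((S.F0 ^ m) z) = z) : S.Rel q z := by
  refine ⟨∑ i ∈ Finset.range m, dist ((S.F ^ (i : ℤ)) q) ((S.F0 ^ (i : ℤ)) z), fun j => ?_⟩
  have hm' : (0 : ℤ) < m := by exact_mod_cast hm
  obtain ⟨i, hi⟩ := Int.eq_ofNat_of_zero_le (Int.emod_nonneg j hm'.ne')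
  have hi' : i < m := by
    have h1 := Int.emod_lt_of_pos j hm'
    rw [hi] at h1
    exact_mod_cast h1
  have hj : j = (i : ℤ) + (m : ℤ) * (j / (m : ℤ)) := by
    rw [← hi]
    exact (Int.emod_add_mul_ediv j m).symm
  obtain ⟨h, hh, h1, h2⟩ := S.shift_int_Fixed hg hq hz (j / (m : ℤ))
  obtain ⟨h', hh', h3, h4⟩ := S.conj_zpow hh (i : ℤ)
  rw [hj, zpow_add_apply_Fixed, zpow_add_apply_Fixed, h1, h2, h3, h4, h'.dist_eq]
  exact Finset.single_le_sum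
    (f := fun i : ℕ => dist ((S.F ^ (i : ℤ)) q) ((S.F0 ^ (i : ℤ)) z))
    (fun _ _ => dist_nonneg) (Finset.mem_range.2 hi')

theorem rel_closed : IsClosed {p : X × X | S.Rel p.1 p.2} := by
  obtain ⟨C1, hC1⟩ := S.rel_bound
  have h1 : {p : X × X | S.Rel p.1 p.2} =
      ⋂ j : ℤ, {p : X × X | dist ((S.F ^ j) p.1) ((S.F0 ^ j) p.2) ≤ C1} := by
    ext p
    rw [mem_iInter]
    exact ⟨fun h j => hC1 _ _ h j, fun h => ⟨C1, h⟩⟩
  rw [h1]
  refine isClosed_iInter fun j => isClosed_le ?_ continuous_const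
  exact ((S.F ^ j).continuous.comp continuous_fst).dist
    ((S.F0 ^ j).continuous.comp continuous_snd)

end Pool.Agent.ANO.Core.Setup
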