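import Mathlib

/-!
# ANO: convergence of an orbit whose limit points are finitely many fixed points

Package (self-contained).

Proof.  If `Q` is empty: `K` is compact, nonempty (`T^[0] b ∈ K`), so the sequence has a cluster
point (`IsCompact.exists_mapClusterPt` or similar), contradiction.  Let `Q` be nonempty and finite.
Choose `r > 0` such that `dist q q' > 2 r` for different `q, q' ∈ Q`.  By continuity of `T` at the
fixed points there is `r' ∈ (0, r)` with `T (ball q r') ⊆ ball q r` for all `q ∈ Q`.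
Let `V = ⋃_{q ∈ Q} ball q r'`, open.  Eventually `T^[n] b ∈ V`: otherwise frequently
`T^[n] b ∈ K \ V`, compact, and there would be a cluster point in `K \ V`
(`IsCompact.exists_mapClusterPt_of_frequently`), but the cluster points are in `Q ⊆ V`.
So for `n ≥ N`: `T^[n] b ∈ ball q_n r'` with `q_n ∈ Q`, and `T^[n+1] b ∈ ball q_n r ∩ ball q_{n+1} r'`
gives `dist q_n q_{n+1} < 2 r`, so `q_n = q_{n+1}`.  Hence `q_n = q` is constant for `n ≥ N`, all
cluster points are in `closedBall q r' ∩ Q = {q}`; a sequence in a compact set with only one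
cluster point converges to it (again with `exists_mapClusterPt_of_frequently` applied to the
compact set `K \ ball q s` for every `s > 0`).
-/

set_option autoImplicit false

open Set Filter Topology

namespace Pool.Agent.ANO.Core

theorem tendsto_of_clusters {X : Type*} [MetricSpace X] {K : Set X} (hK : IsCompact K)
    {T : X → X} (hT : Continuous T) {b : X} (hb : ∀ n : ℕ, T^[n] b ∈ K) {Q : Set X}
    (hQ : Q.Finite) (hfix : ∀ q ∈ Q, T q = q)
    (hcl : ∀ y, MapClusterPt y atTop (fun n => T^[n] b) → y ∈ Q) :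
    ∃ q ∈ Q, Tendsto (fun n => T^[n] b) atTop (𝓝 q) := by
  obtain ⟨U, hU, hUd⟩ := hQ.t2_separation
  have huniq : ∀ q ∈ Q, ∀ q' ∈ Q, ∀ x, x ∈ U q → x ∈ U q' → q = q' := by
    intro q hq q' hq' x hx hx'
    by_contra hne
    exact Set.disjoint_left.1 (hUd hq hq' hne) hx hx'
  have hWo : ∀ q, IsOpen (U q ∩ T ⁻¹' U q) := fun q => (hU q).2.inter ((hU q).2.preimage hT)
  have hWm : ∀ q ∈ Q, q ∈ U q ∩ T ⁻¹' U q := fun q hq => ⟨(hU q).1, by
    rw [Set.mem_preimage, hfix q hq]
    exact (hU q).1⟩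
  have hev : ∀ᶠ n in atTop, T^[n] b ∈ ⋃ q ∈ Q, (U q ∩ T ⁻¹' U q) := by
    by_contra hnot
    have hfr : ∃ᶠ n in atTop, T^[n] b ∈ K \ ⋃ q ∈ Q, (U q ∩ T ⁻¹' U q) :=
      (not_eventually.1 hnot).mono fun n hn => ⟨hb n, hn⟩
    obtain ⟨y, hy, hyc⟩ :=
      (hK.diff (isOpen_biUnion fun q _ => hWo q)).exists_mapClusterPt_of_frequently
      hfr
    have hyQ := hcl y hyc
    exact hy.2 (Set.mem_biUnion hyQ (hWm y hyQ))
  obtain ⟨N, hN⟩ := eventually_atTop.1 hev
  obtain ⟨q, hq, hqN⟩ := Set.mem_iUnion₂.1 (hN N le_rfl)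
  have hall : ∀ n, N ≤ n → T^[n] b ∈ U q ∩ T ⁻¹' U q := by
    intro n hn
    induction n, hn using Nat.le_induction with
    | base => exact hqN
    | succ n hn ih =>
      obtain ⟨q', hq', hqn⟩ := Set.mem_iUnion₂.1 (hN (n + 1) (by omega))
      have h1 : T^[n + 1] b ∈ U q := by
        rw [Function.iterate_succ_apply']
        exact ih.2
      rw [huniq q hq q' hq' _ h1 hqn.1]
      exact hqn
  refine ⟨q, hq, ?_⟩
  rw [tendsto_nhds]
  intro s hs hqs
  by_contra hnot
  have hfr : ∃ᶠ n in atTop, T^[n] b ∈ K \ s :=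
    (not_eventually.1 hnot).mono fun n hn => ⟨hb n, hn⟩
  obtain ⟨y, hy, hyc⟩ := (hK.diff hs).exists_mapClusterPt_of_frequently hfr
  have hyQ := hcl y hyc
  have hfy : ∃ᶠ n in atTop, T^[n] b ∈ U y := hyc.frequently ((hU y).2.mem_nhds (hU y).1)
  obtain ⟨n, hn1, hn2⟩ := (hfy.and_eventually (eventually_atTop.2 ⟨N, hall⟩)).exists
  have hyq : y = q := huniq y hyQ q hq _ hn1 hn2.1
  rw [hyq] at hy
  exact hy.2 hqs

end Pool.Agent.ANO.Core
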