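import Pool.Agent.ANO.Core.LocalBasic
import Pool.Agent.ANO.Core.PerShadow
import Pool.Agent.ANO.Core.Omega

/-!
# ANO, abstract core: periodic points and limit points in `K0`, steps (1), (2)

Package.

Proofs.
* `exists_good` (1): let `Q = {q | ∃ j > 0, T^[j] q = q}`.  A finite subset `{q_1, …, q_p}` of `Q`
  with periods `j_i` is contained in `Fix(T^[∏ j_i])` (`Function.IsPeriodicPt`), which has at most
  `n - 1` elements by `L.count`.  So `Q` is finite (`Set.encard_le_coe_iff`-type argument: if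
  `Q.encard > n-1` there is a finite subset with `n` elements) and with `J = ∏_{q ∈ Q} j_q` we
  have `Q = Fix(T^[J])`.  Let `L'` have `g' = g_J`, `m' = m J` where `T^[J] x = g_J (F^(m J) x)`,
  `T0^[J] x = g_J (F0^(m J) x)` (`S.iter`), the same `n, w, XS, YS`.  `fixed`: `T0^[J] w = w`.
  `invX`: `z ∈ XS e ↔ T0 z ∈ XS e` near `w`, `T0` continuous, `T0 w = w`: by induction on `j`, for
  `z` near `w`: `z ∈ XS e ↔ T0^[j] z ∈ XS e`.  `count`: `(T^[J])^[j] = T^[J j]`.  If `(T^[J])^[j]
  q = q`, `j > 0`, then `q ∈ Q`, so `T^[J] q = q`.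
* `tendsto_T` (2): let `L.Good`, `b ∈ K0`.  Apply `tendsto_of_clusters` with `K = K0`, `T = L.T`,
  `Q = {q | T q = q}`.  Let `y` be a cluster point of `T^[n] b`; show `y ∈ Q`.  `Q` is finite,
  hence closed: it suffices that for every `ε > 0` there is `c ∈ Q` with `dist c y < 2 ε`.  Let
  `δ` be from `S.closing_orbit ε`.  There are `n < n'` with `dist (T^[n] b) y < min ε (δ/2)`,
  `dist (T^[n'] b) y < δ/2` (frequently).  Let `x = T^[n] b`, `l = n' - n > 0`: `T^[l] x = T^[n']
  b`, so `dist (T^[l] x) x ≤ δ`, `T^[l] x = g_l (F^(m l) x)`; so there is `c` with `T^[l] c = c`,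
  `dist c x ≤ ε` (`i = 0`).  By `Good`, `T c = c`.
-/

set_option autoImplicit false

open Set Filter Topology

namespace Pool.Agent.ANO.Core

variable {X : Type} [MetricSpace X] [ProperSpace X] {S : Setup X}

namespace Local

variable (L : Local S)

include L in
/-- Step (1): after replacing `T` by a power all periodic points of `T` are fixed points. -/
theorem exists_good : ∃ L' : Local S, L'.Good := by
  classical
  have hcount : ∀ j : ℕ, 0 < j → {q : X | L.T^[j] q = q}.encard ≤ (L.n - 1 : ℕ) := L.count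
  have hfin : ∀ j : ℕ, 0 < j → {q : X | L.T^[j] q = q}.Finite := fun j hj =>
    Set.finite_of_encard_le_coe (hcount j hj)
  have hnc : ∀ j : ℕ, 0 < j → {q : X | L.T^[j] q = q}.ncard ≤ L.n - 1 := by
    intro j hj
    have h1 := hcount j hj
    rw [← (hfin j hj).cast_ncard_eq] at h1
    exact_mod_cast h1
  -- `J` with the greatest number of fixed points
  obtain ⟨J, hJ, hmax⟩ : ∃ J : ℕ, 0 < J ∧ ∀ j : ℕ, 0 < j →
      {q : X | L.T^[j] q = q}.ncard ≤ {q : X | L.T^[J] q = q}.ncard := by
    set A : Set ℕ := (fun j : ℕ => {q : X | L.T^[j] q = q}.ncard) '' {j : ℕ | 0 < j} with hA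
    have hne : A.Nonempty := ⟨_, 1, Nat.one_pos, rfl⟩
    have hbd : BddAbove A := ⟨L.n - 1, by
      rintro _ ⟨j, hj, rfl⟩
      exact hnc j hj⟩
    obtain ⟨J, hJ, hJe⟩ := Nat.sSup_mem hne hbd
    refine ⟨J, hJ, fun j hj => ?_⟩
    have := le_csSup hbd (show {q : X | L.T^[j] q = q}.ncard ∈ A from ⟨j, hj, rfl⟩)
    rw [← hJe] at this
    exact this
  have hper : ∀ j : ℕ, 0 < j → ∀ q, L.T^[J * j] q = q → L.T^[J] q = q := by
    intro j hj q hq
    have hsub : {q : X | L.T^[J] q = q} ⊆ {q : X | L.T^[J * j] q = q} := by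
      intro x hx
      show L.T^[J * j] x = x
      rw [Function.iterate_mul]
      exact Function.iterate_fixed hx j
    have heq := Set.eq_of_subset_of_ncard_le hsub (hmax (J * j) (Nat.mul_pos hJ hj))
      (hfin (J * j) (Nat.mul_pos hJ hj))
    have : q ∈ {q : X | L.T^[J * j] q = q} := hq
    rw [← heq] at this
    exact this
  obtain ⟨gJ, hgJ, h1, h2⟩ := L.iter_T J
  have hfun : (fun x => gJ ((S.F ^ (L.m * J)) x)) = L.T^[J] := by
    funext x
    exact (h1 x).symm
  have hw : L.T0 L.w = L.w := L.fixed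
  have hinv : ∀ (W : ZMod L.n → Set X), (∀ᶠ z in 𝓝 L.w, ∀ e, z ∈ W e ↔ L.T0 z ∈ W e) →
      ∀ j : ℕ, ∀ᶠ z in 𝓝 L.w, ∀ e, z ∈ W e ↔ L.T0^[j] z ∈ W e := by
    intro W hW j
    induction j with
    | zero => exact Eventually.of_forall fun z e => Iff.rfl
    | succ j ih =>
      have ht : Tendsto (L.T0^[j]) (𝓝 L.w) (𝓝 L.w) := by
        have h3 : Continuous (L.T0^[j]) := L.T0.continuous.iterate j
        have h4 := h3.tendsto L.w
        rwa [Function.iterate_fixed hw j] at h4
      filter_upwards [ih, ht.eventually hW] with z hz1 hz2 e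
      rw [Function.iterate_succ_apply']
      exact (hz1 e).trans (hz2 e)
  refine ⟨{
    n := L.n
    three_le := L.three_le
    w := L.w
    g := gJ
    mem := hgJ
    m := L.m * J
    m_pos := Nat.mul_pos L.m_pos hJ
    fixed := by rw [← h2, Function.iterate_fixed hw J]
    XS := L.XS
    YS := L.YS
    adj := L.adj
    closeX := L.closeX
    closeY := L.closeY
    invX := by
      filter_upwards [hinv L.XS L.invX J] with z hz e
      rw [← h2]
      exact hz e
    invY := by
      filter_upwards [hinv L.YS L.invY J] with z hz e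
      rw [← h2]
      exact hz e
    count := by
      intro j hj
      rw [hfun, ← Function.iterate_mul]
      exact hcount (J * j) (Nat.mul_pos hJ hj)
    dense := L.dense }, ?_⟩
  intro j hj q hq
  have h5 : (fun x => gJ ((S.F ^ (L.m * J)) x))^[j] q = q := hq
  show (fun x => gJ ((S.F ^ (L.m * J)) x)) q = q
  rw [hfun] at h5 ⊢
  rw [← Function.iterate_mul] at h5
  exact hper j hj q h5

/-- Step (2). -/
theorem tendsto_T (hL : L.Good) {b : X} (hb : b ∈ L.K0) :
    ∃ q, L.T q = q ∧ Tendsto (fun n => L.T^[n] b) atTop (𝓝 q) := by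
  have hmem : ∀ n : ℕ, L.T^[n] b ∈ L.K0 := by
    intro n
    induction n with
    | zero => exact hb
    | succ n ih =>
      rw [Function.iterate_succ_apply']
      exact L.T_mem_K0 ih
  refine tendsto_of_clusters L.isCompact_K0 L.T.continuous hmem L.fix_finite
    (fun q hq => hq) fun y hy => ?_
  suffices hc : y ∈ closure {q | L.T q = q} by
    rw [L.fix_finite.isClosed.closure_eq] at hc
    exact hc
  rw [Metric.mem_closure_iff]
  intro ε hε
  obtain ⟨δ, hδ, hcl⟩ := S.closing_orbit (half_pos hε)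
  rw [mapClusterPt_iff_frequently] at hy
  have hr : 0 < min (ε / 2) (δ / 2) := lt_min (half_pos hε) (half_pos hδ)
  have hfr := hy _ (Metric.ball_mem_nhds y hr)
  obtain ⟨n, -, hn⟩ := Filter.frequently_atTop.1 hfr 0
  obtain ⟨n', hn', hn2⟩ := Filter.frequently_atTop.1 hfr (n + 1)
  obtain ⟨l, hl, rfl⟩ : ∃ l : ℕ, 0 < l ∧ n' = l + n := ⟨n' - n, by omega, by omega⟩
  rw [Metric.mem_ball] at hn hn2
  rw [Function.iterate_add_apply] at hn2
  obtain ⟨gl, hgl, h1, -⟩ := L.iter_T l
  have h2 : dist (gl ((S.F ^ (L.m * l)) (L.T^[n] b))) (L.T^[n] b) ≤ δ := by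
    rw [← h1]
    have h3 := dist_triangle_right (L.T^[l] (L.T^[n] b)) (L.T^[n] b) y
    have h4 := min_le_right (ε / 2) (δ / 2)
    linarith
  obtain ⟨c, hc, hc2⟩ := hcl gl hgl (L.m * l) (Nat.mul_pos L.m_pos hl) _ h2
  have h3 : L.T^[l] c = c := by rw [h1, hc]
  refine ⟨c, hL l hl c h3, ?_⟩
  have h4 := hc2 0 (Nat.mul_pos L.m_pos hl)
  have h5 : dist c (L.T^[n] b) ≤ ε / 2 := by simpa using h4
  have h6 := dist_triangle_left y c (L.T^[n] b)
  have h7 := min_le_left (ε / 2) (δ / 2)
  rw [dist_comm c] at h5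
  linarith

end Local

end Pool.Agent.ANO.Core
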