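import Pool.Agent.ANO.Core.Phi

/-!
# ANO, abstract core: the lift `T` at a cone point; the set `K0`

Package.  `L.T x = g (F^m x)`, `L.T0 x = g (F0^m x)`, `L.T0 w = w`;
`K0 = {b ∈ closure Per | phi b = w}`.

Proofs.
* `iter_T`: `S.iter` (note `⇑L.T = fun x => L.g ((S.F ^ L.m) x)` by `rfl`).
* `T_mem_closure`: `closure_g`, `closure_F`.  `phi_T`: `phi_g`, `phi_F`.
* `T_mem_K0`: from these, `phi (T b) = T0 (phi b) = T0 w = w`.
* `isCompact_K0`: `K0` is closed: `ContinuousOn phi (closure Per)`, `closure Per` closed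
  (`ContinuousOn.preimage_isClosed_of_isClosed`), and bounded: `dist b w = dist b (phi b) ≤ C1`
  (`dist_phi` with `j = 0`).
* `fix_mem_K0`: `T q = q` means `g (F^m q) = q`, so `q ∈ Per` and `Rel q w` (`rel_of_fixed`,
  `L.fixed`), `phi q = w`.
* `fix_finite`: `L.count 1`, `Set.finite_of_encard_le_coe`.
* `card_fix_lt`: `L.count 1`, `L.three_le`.
-/

set_option autoImplicit false

open Set Filter Topology

namespace Pool.Agent.ANO.Core

variable {X : Type} [MetricSpace X] [ProperSpace X] {S : Setup X}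

namespace Local

variable (L : Local S)

/-- The lift of the power of the Anosov map. -/
def T : X ≃ₜ X := (S.F ^ L.m).trans L.g.toHomeomorph

/-- The corresponding lift of the model. -/
def T0 : X ≃ₜ X := (S.F0 ^ L.m).trans L.g.toHomeomorph

theorem T_apply (x : X) : L.T x = L.g ((S.F ^ L.m) x) := rfl

theorem T0_apply (x : X) : L.T0 x = L.g ((S.F0 ^ L.m) x) := rfl

/-- The fibre of the semiconjugacy over the cone point. -/
def K0 : Set X := {b | b ∈ closure S.Per ∧ S.phi b = L.w}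

/-- All periodic points of `T` are fixed points. -/
def Good : Prop := ∀ j : ℕ, 0 < j → ∀ q, L.T^[j] q = q → L.T q = q

theorem iter_T (j : ℕ) : ∃ gj ∈ S.𝒢, (∀ x, L.T^[j] x = gj ((S.F ^ (L.m * j)) x)) ∧
    ∀ x, L.T0^[j] x = gj ((S.F0 ^ (L.m * j)) x) :=
  S.iter L.mem L.m j

private theorem T_apply' (x : X) : L.T x = L.g ((S.F ^ (L.m : ℤ)) x) := by
  rw [zpow_natCast]
  rfl

private theorem T0_apply' (x : X) : L.T0 x = L.g ((S.F0 ^ (L.m : ℤ)) x) := by
  rw [zpow_natCast]
  rfl

private theorem Tsymm_apply' (x : X) : L.T.symm x = (S.F ^ (-(L.m : ℤ))) (L.g⁻¹ x) := by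
  rw [zpow_neg, zpow_natCast]
  rfl

theorem T_per {a : X} (ha : a ∈ S.Per) : L.T a ∈ S.Per := by
  rw [T_apply']
  exact S.per_g L.mem (S.per_F _ ha)

theorem Tsymm_per {a : X} (ha : a ∈ S.Per) : L.T.symm a ∈ S.Per := by
  rw [Tsymm_apply']
  exact S.per_F _ (S.per_g (inv_mem L.mem) ha)

theorem T_mem_closure {b : X} (hb : b ∈ closure S.Per) : L.T b ∈ closure S.Per := by
  rw [T_apply']
  exact S.closure_g L.mem (S.closure_F _ hb)

theorem Tsymm_mem_closure {b : X} (hb : b ∈ closure S.Per) : L.T.symm b ∈ closure S.Per := by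
  rw [Tsymm_apply']
  exact S.closure_F _ (S.closure_g (inv_mem L.mem) hb)

theorem phi_T {b : X} (hb : b ∈ closure S.Per) : S.phi (L.T b) = L.T0 (S.phi b) := by
  rw [T_apply', T0_apply', S.phi_g L.mem (S.closure_F _ hb), S.phi_F _ hb]

theorem T_mem_K0 {b : X} (hb : b ∈ L.K0) : L.T b ∈ L.K0 := by
  refine ⟨L.T_mem_closure hb.1, ?_⟩
  rw [L.phi_T hb.1, hb.2, T0_apply, L.fixed]

theorem isCompact_K0 : IsCompact L.K0 := by
  obtain ⟨C1, hC1⟩ := S.dist_phi
  have hc : IsClosed L.K0 :=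
    S.continuousOn_phi.preimage_isClosed_of_isClosed isClosed_closure isClosed_singleton
  refine Metric.isCompact_of_isClosed_isBounded hc ?_
  refine (Metric.isBounded_closedBall (x := L.w) (r := C1)).subset ?_
  intro b hb
  rw [Metric.mem_closedBall]
  have h := hC1 b hb.1 0
  rw [zpow_zero, zpow_zero, hb.2] at h
  exact h

theorem fix_mem_K0 {q : X} (hq : L.T q = q) : q ∈ L.K0 :=
  ⟨subset_closure ⟨L.g, L.mem, L.m, L.m_pos, hq⟩,
    S.phi_eq (S.rel_of_fixed L.mem L.m_pos hq L.fixed)⟩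

private theorem fix_encard : {q | L.T q = q}.encard ≤ (L.n - 1 : ℕ) := by
  have h := L.count 1 one_pos
  exact h

theorem fix_finite : {q | L.T q = q}.Finite :=
  Set.finite_of_encard_le_coe L.fix_encard

theorem card_fix_lt : {q | L.T q = q}.ncard < L.n := by
  have h := (Set.encard_le_coe_iff_finite_ncard_le.1 L.fix_encard).2
  have h3 := L.three_le
  omega

end Local

end Pool.Agent.ANO.Core
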