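import Pool.Agent.ANO.Core.Super
import Pool.Agent.ANO.Core.AdjOf
import Pool.Agent.ANO.Core.Good
import Pool.Agent.ANO.Core.Count
import Pool.Agent.ANO.Iface

/-!
# ANO, abstract core: steps (6), (7) and the contradiction

Package.

Proof of `cover` (6).  Let `Adj e e'`.  For every `n` let `z_n ∈ ball w (1/(n+1))` be from
`L.dense e e'`, with `g'_n (F0^(m'_n) z_n) = z_n` and `q_n` with `g'_n (F^(m'_n) q_n) = q_n`.  Then
`q_n ∈ Per`, `Rel q_n z_n` (`rel_of_fixed`), `phi q_n = z_n` (`phi_eq`), and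
`dist q_n z_n ≤ C1` (`dist_phi`, `j = 0`).  So `q_n` is bounded, a subsequence converges to some `b`
(`tendsto_subseq_of_bounded`), `b ∈ closure Per`, and `phi b = lim phi q_n = lim z_n = w` by
`continuousOn_phi`.  So `b ∈ K0`; `e ∈ UX b` because `q_n → b` along the subsequence, `q_n ∈ Per`,
`phi q_n = z_n ∈ XS e` (`Filter.Tendsto.frequently`), `e' ∈ UY b` too.

Proof of `contradiction`.  By `exists_good` we may assume `L.Good`.  Let `Q = {q // L.T q = q}`, a
`Fintype` (`fix_finite`), `U q = UX q`, `W q = {e' | ∃ b ∈ K0, T^[n] b → q ∧ e' ∈ UY b}`.  `hadj`: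
`e ∈ UX q = UX b` (`UX_superset`), `adj_of`.  `hcov`: let `Adj e e'`, `b` from `cover`, `q` from
`tendsto_T`; `e ∈ UX b ⊆ UX q` (`UX_of_tendsto`), `e' ∈ W q`.  `counting` gives
`L.n ≤ card Q = {q | T q = q}.ncard < L.n`.
-/

set_option autoImplicit false

open Set Filter Topology

namespace Pool.Agent.ANO.Core

variable {X : Type} [MetricSpace X] [ProperSpace X] {S : Setup X}

namespace Local

variable (L : Local S)

theorem cover {e e' : ZMod L.n} (h : Adj e e') : ∃ b ∈ L.K0, e ∈ L.UX b ∧ e' ∈ L.UY b := by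
  have key : ∀ n : ℕ, ∃ z q : X, dist z L.w < 1 / ((n : ℝ) + 1) ∧ z ∈ L.XS e ∧ z ∈ L.YS e' ∧
      q ∈ S.Per ∧ S.Rel q z := by
    intro n
    obtain ⟨z, hz, hX, hY, g', hg', m', hm', hfix, q, hq⟩ :=
      L.dense e e' h (Metric.ball L.w (1 / ((n : ℝ) + 1))) (Metric.ball_mem_nhds _ (by positivity))
    exact ⟨z, q, hz, hX, hY, ⟨g', hg', m', hm', hq⟩, S.rel_of_fixed hg' hm' hq hfix⟩
  choose z q hz hX hY hP hR using key
  have hphi : ∀ n, S.phi (q n) = z n := fun n => S.phi_eq (hR n)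
  obtain ⟨C1, hC1⟩ := S.dist_phi
  have hdist : ∀ n, dist (q n) (z n) ≤ C1 := by
    intro n
    have h1 := hC1 (q n) (subset_closure (hP n)) 0
    rw [zpow_zero, zpow_zero, hphi] at h1
    exact h1
  have hmem : ∀ n, q n ∈ Metric.closedBall L.w (C1 + 1) := by
    intro n
    rw [Metric.mem_closedBall]
    have h1 : 1 / ((n : ℝ) + 1) ≤ 1 := by
      rw [div_le_one (by positivity)]
      linarith [Nat.cast_nonneg (α := ℝ) n]
    have h2 := dist_triangle (q n) (z n) L.w
    linarith [hdist n, hz n]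
  obtain ⟨b, -, φ, hφ, hb⟩ := tendsto_subseq_of_bounded Metric.isBounded_closedBall hmem
  have hbc : b ∈ closure S.Per :=
    mem_closure_of_tendsto hb (Eventually.of_forall fun n => hP (φ n))
  have hzt : Tendsto z atTop (𝓝 L.w) := by
    rw [tendsto_iff_dist_tendsto_zero]
    exact squeeze_zero (fun n => dist_nonneg) (fun n => (hz n).le)
      tendsto_one_div_add_atTop_nhds_zero_nat
  have h1 : Tendsto (fun n => S.phi (q (φ n))) atTop (𝓝 (S.phi b)) := by
    refine (S.continuousOn_phi b hbc).tendsto.comp ?_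
    exact tendsto_nhdsWithin_iff.2 ⟨hb, Eventually.of_forall fun n => subset_closure (hP (φ n))⟩
  have h2 : Tendsto (fun n => S.phi (q (φ n))) atTop (𝓝 L.w) := by
    simp only [hphi]
    exact hzt.comp hφ.tendsto_atTop
  refine ⟨b, ⟨hbc, tendsto_nhds_unique h1 h2⟩, ?_, ?_⟩
  · refine hb.frequently (p := fun a => a ∈ S.Per ∧ S.phi a ∈ L.XS e)
      (Eventually.of_forall fun n => ⟨hP (φ n), ?_⟩).frequently
    change S.phi (q (φ n)) ∈ L.XS e
    rw [hphi]
    exact hX (φ n)
  · refine hb.frequently (p := fun a => a ∈ S.Per ∧ S.phi a ∈ L.YS e')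
      (Eventually.of_forall fun n => ⟨hP (φ n), ?_⟩).frequently
    change S.phi (q (φ n)) ∈ L.YS e'
    rw [hphi]
    exact hY (φ n)

include L in
theorem contradiction : False := by
  obtain ⟨L, hL⟩ := L.exists_good
  classical
  have hfin := L.fix_finite
  have : Fintype {q : X // L.T q = q} := hfin.fintype
  have hle := counting L.three_le (Q := {q : X // L.T q = q}) (fun q => L.UX q.1)
    (fun q => {e' | ∃ b ∈ L.K0, Tendsto (fun n => L.T^[n] b) atTop (𝓝 q.1) ∧ e' ∈ L.UY b})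
    (by
      rintro ⟨q, hq⟩ e he e' ⟨b, hb, ht, he'⟩
      exact L.adj_of hb (L.UX_superset hb hq ht he) he')
    (by
      intro e e' h
      obtain ⟨b, hb, he, he'⟩ := L.cover h
      obtain ⟨q, hq, ht⟩ := L.tendsto_T hL hb
      exact ⟨⟨q, hq⟩, L.UX_of_tendsto hb ht he, b, hb, ht, he'⟩)
  have hlt : Nat.card {q : X // L.T q = q} < L.n := L.card_fix_lt
  rw [Nat.card_eq_fintype_card] at hlt
  exact absurd hlt (not_lt.mpr hle)

theorem coreStatement : CoreStatement := fun _ _ _ _ L => L.contradiction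

end Local

end Pool.Agent.ANO.Core
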