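import Pool.Agent.ANO.Core.Basic

/-!
# ANO, abstract core: the shadowing relation, (S1), (S2)

Package.  `Rel x z` means `sup_j dist (F^j x) (F0^j z) < ∞` (`j ∈ ℤ`).

Proofs.
* `rel_bound` (S1): let `C` be the constants of `S.near`, `S.near'` (take the maximum), `C'` the
  constant of `S.upper C`.  Let `Rel x z`, `u_j = DU (F^j x) (F0^j z)`; it is bounded by `S.upper`.
  `lam u_j ≤ DU (F0 (F^j x)) (F0 (F0^j z)) ≤ DU (F0 (F^j x)) (F^(j+1) x) + u_(j+1) ≤ C' + u_(j+1)`.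
  So `M = sup u_j` satisfies `lam M ≤ C' + M`, i.e. `u_j ≤ C' / (lam - 1)`.  (`ciSup` or: show
  `u_j ≤ B → u_j ≤ (C' + B)/lam` for every uniform bound `B` and iterate; `iSup` is shorter.)
  Similarly `v_j = DS (F^j x) (F0^j z)`: `lam v_j ≤ DS (F0⁻¹ F^j x) (F0⁻¹ F0^j z)
  ≤ DS (F0⁻¹ F^j x) (F^(j-1) x) + v_(j-1) ≤ C' + v_(j-1)`, and `v_j ≤ C'/(lam - 1)`.  Now
  `S.proper (C'/(lam-1))` gives `C1`.
* `stretchU`: `lam^J DU z z' ≤ DU (F0^J z) (F0^J z') ≤ C` with `C` from `S.upper R` (induction on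
  `J` for the first inequality, `DU_expand`).  `stretchS`: the same with `F0.symm`, `DS_expand`.
  (`F0 ^ (-(J:ℤ))` is the `J`-th power of `F0.symm = F0⁻¹`.)
* `eq_of_bounded`: by `stretchU`, `stretchS` with `R = C`: `DU z z' ≤ C'' / lam^J` for all `J`, so
  `DU z z' = 0`, also `DS z z' = 0`; `S.eq_of_zero`.
* `rel_unique`: `dist (F0^j z) (F0^j z') ≤ C + C'`.
* `rel_g`: `dist (F^j (g x)) (F0^j (g z)) = dist (g' (F^j x)) (g' (F0^j z)) = dist (F^j x) (F0^j z)`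
  (`conj_zpow` gives the same `g'` for `F` and `F0`).
* `rel_F`: `(S.F ^ i) ((S.F ^ j) x) = (S.F ^ (i+j)) x`.
-/

set_option autoImplicit false

open Set Filter Topology

namespace Pool.Agent.ANO.Core.Setup

variable {X : Type} [MetricSpace X] [ProperSpace X] (S : Setup X)

private theorem geo {lam : ℝ} (hl : 1 < lam) {C : ℝ} {u : ℤ → ℝ} {B : ℝ} (hB : ∀ j, u j ≤ B)
    (h : ∀ j, lam * u j ≤ C + u (j + 1)) (j : ℤ) : u j ≤ C / (lam - 1) := by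
  have hb : BddAbove (Set.range u) := ⟨B, by
    rintro _ ⟨i, rfl⟩
    exact hB i⟩
  have h0 : 0 < lam := by linarith
  have h1 : ∀ i, u i ≤ (C + ⨆ l, u l) / lam := by
    intro i
    rw [le_div_iff₀ h0, mul_comm]
    exact (h i).trans (by linarith [le_ciSup hb (i + 1)])
  have h2 : (⨆ l, u l) ≤ (C + ⨆ l, u l) / lam := ciSup_le h1
  rw [le_div_iff₀ h0] at h2
  have h3 : u j ≤ ⨆ l, u l := le_ciSup hb j
  refine h3.trans ?_
  rw [le_div_iff₀ (by linarith)]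
  linarith

omit [ProperSpace X] in
private theorem zsucc (H : X ≃ₜ X) (j : ℤ) (x : X) : (H ^ (j + 1)) x = H ((H ^ j) x) := by
  rw [add_comm, zpow_one_add]
  rfl

omit [ProperSpace X] in
private theorem zpred (H : X ≃ₜ X) (j : ℤ) (x : X) : (H ^ (j - 1)) x = H.symm ((H ^ j) x) := by
  have h1 := zsucc H (j - 1) x
  rw [sub_add_cancel] at h1
  rw [h1, Homeomorph.symm_apply_apply]

private theorem bound_zero {lam : ℝ} (hl : 1 < lam) {a C : ℝ} (ha : 0 ≤ a)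
    (h : ∀ J : ℕ, lam ^ J * a ≤ C) : a = 0 := by
  by_contra h0
  have h1 : 0 < a := lt_of_le_of_ne ha (Ne.symm h0)
  obtain ⟨n, hn⟩ := pow_unbounded_of_one_lt (C / a) hl
  rw [div_lt_iff₀ h1] at hn
  exact absurd (h n) (not_le.2 hn)

theorem rel_bound : ∃ C1 : ℝ, ∀ x z, S.Rel x z → ∀ j : ℤ,
    dist ((S.F ^ j) x) ((S.F0 ^ j) z) ≤ C1 := by
  obtain ⟨c1, hc1⟩ := S.near
  obtain ⟨c2, hc2⟩ := S.near'
  obtain ⟨C, hC⟩ := S.upper (max c1 c2)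
  obtain ⟨C1, hC1⟩ := S.proper (C / (S.lam - 1))
  refine ⟨C1, fun x z hxz j => ?_⟩
  obtain ⟨R, hR⟩ := hxz
  obtain ⟨B, hB⟩ := S.upper R
  refine hC1 _ _ ?_ ?_
  · refine geo (u := fun i => S.DU ((S.F ^ i) x) ((S.F0 ^ i) z)) S.one_lt_lam
      (fun i => (hB _ _ (hR i)).1) (fun i => ?_) j
    have h1 := S.DU_expand ((S.F ^ i) x) ((S.F0 ^ i) z)
    have h2 := S.DU_triangle (S.F0 ((S.F ^ i) x)) (S.F ((S.F ^ i) x)) (S.F0 ((S.F0 ^ i) z))
    have h3 : S.DU (S.F0 ((S.F ^ i) x)) (S.F ((S.F ^ i) x)) ≤ C := by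
      refine (hC _ _ ?_).1
      rw [dist_comm]
      exact (hc1 _).trans (le_max_left _ _)
    show S.lam * S.DU ((S.F ^ i) x) ((S.F0 ^ i) z) ≤
      C + S.DU ((S.F ^ (i + 1)) x) ((S.F0 ^ (i + 1)) z)
    rw [zsucc, zsucc]
    linarith
  · have h0 := geo (u := fun i => S.DS ((S.F ^ (-i)) x) ((S.F0 ^ (-i)) z)) (C := C) S.one_lt_lam
      (fun i => (hB _ _ (hR (-i))).2) (fun i => ?_) (-j)
    · simpa only [neg_neg] using h0
    · have h1 := S.DS_expand ((S.F ^ (-i)) x) ((S.F0 ^ (-i)) z)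
      have h2 := S.DS_triangle (S.F0.symm ((S.F ^ (-i)) x)) (S.F.symm ((S.F ^ (-i)) x))
        (S.F0.symm ((S.F0 ^ (-i)) z))
      have h3 : S.DS (S.F0.symm ((S.F ^ (-i)) x)) (S.F.symm ((S.F ^ (-i)) x)) ≤ C := by
        refine (hC _ _ ?_).2
        rw [dist_comm]
        exact (hc2 _).trans (le_max_right _ _)
      show S.lam * S.DS ((S.F ^ (-i)) x) ((S.F0 ^ (-i)) z) ≤
        C + S.DS ((S.F ^ (-(i + 1))) x) ((S.F0 ^ (-(i + 1))) z)
      rw [show -(i + 1) = -i - 1 by ring, zpred, zpred]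
      linarith

theorem stretchU (R : ℝ) : ∃ C : ℝ, ∀ (J : ℕ) (z z' : X),
    dist ((S.F0 ^ (J : ℤ)) z) ((S.F0 ^ (J : ℤ)) z') ≤ R → S.lam ^ J * S.DU z z' ≤ C := by
  obtain ⟨C, hC⟩ := S.upper R
  refine ⟨C, fun J z z' h => le_trans ?_ (hC _ _ h).1⟩
  clear h
  have h0 : 0 < S.lam := by linarith [S.one_lt_lam]
  induction J with
  | zero =>
    rw [pow_zero, one_mul]
    exact le_of_eq rfl
  | succ J ih =>
    have h1 := S.DU_expand ((S.F0 ^ (J : ℤ)) z) ((S.F0 ^ (J : ℤ)) z')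
    have h2 : ((J + 1 : ℕ) : ℤ) = (J : ℤ) + 1 := by push_cast; ring
    rw [h2, zsucc, zsucc]
    have h3 : S.lam ^ (J + 1) * S.DU z z' = S.lam * (S.lam ^ J * S.DU z z') := by ring
    rw [h3]
    exact (mul_le_mul_of_nonneg_left ih h0.le).trans h1

theorem stretchS (R : ℝ) : ∃ C : ℝ, ∀ (J : ℕ) (z z' : X),
    dist ((S.F0 ^ (-(J : ℤ))) z) ((S.F0 ^ (-(J : ℤ))) z') ≤ R → S.lam ^ J * S.DS z z' ≤ C := by
  obtain ⟨C, hC⟩ := S.upper R
  refine ⟨C, fun J z z' h => le_trans ?_ (hC _ _ h).2⟩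
  clear h
  have h0 : 0 < S.lam := by linarith [S.one_lt_lam]
  induction J with
  | zero =>
    rw [pow_zero, one_mul]
    exact le_of_eq rfl
  | succ J ih =>
    have h1 := S.DS_expand ((S.F0 ^ (-(J : ℤ))) z) ((S.F0 ^ (-(J : ℤ))) z')
    have h2 : -((J + 1 : ℕ) : ℤ) = -(J : ℤ) - 1 := by push_cast; ring
    rw [h2, zpred, zpred]
    have h3 : S.lam ^ (J + 1) * S.DS z z' = S.lam * (S.lam ^ J * S.DS z z') := by ring
    rw [h3]
    exact (mul_le_mul_of_nonneg_left ih h0.le).trans h1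

theorem eq_of_bounded {z z' : X} {C : ℝ}
    (h : ∀ j : ℤ, dist ((S.F0 ^ j) z) ((S.F0 ^ j) z') ≤ C) : z = z' := by
  obtain ⟨C1, h1⟩ := S.stretchU C
  obtain ⟨C2, h2⟩ := S.stretchS C
  exact S.eq_of_zero _ _
    (bound_zero S.one_lt_lam (S.DU_nonneg _ _) fun J => h1 J z z' (h _))
    (bound_zero S.one_lt_lam (S.DS_nonneg _ _) fun J => h2 J z z' (h _))

theorem rel_unique {x z z' : X} (h : S.Rel x z) (h' : S.Rel x z') : z = z' := by
  obtain ⟨C, hC⟩ := h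
  obtain ⟨C', hC'⟩ := h'
  refine S.eq_of_bounded (C := C + C') fun j => ?_
  have h1 := dist_triangle ((S.F0 ^ j) z) ((S.F ^ j) x) ((S.F0 ^ j) z')
  have h2 := hC j
  rw [dist_comm] at h2
  exact h1.trans (add_le_add h2 (hC' j))

theorem rel_g {g : X ≃ᵢ X} (hg : g ∈ S.𝒢) {x z : X} (h : S.Rel x z) : S.Rel (g x) (g z) := by
  obtain ⟨C, hC⟩ := h
  refine ⟨C, fun j => ?_⟩
  obtain ⟨g', -, h1, h2⟩ := S.conj_zpow hg j
  rw [h1, h2, g'.dist_eq]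
  exact hC j

theorem rel_F (j : ℤ) {x z : X} (h : S.Rel x z) : S.Rel ((S.F ^ j) x) ((S.F0 ^ j) z) := by
  obtain ⟨C, hC⟩ := h
  refine ⟨C, fun i => ?_⟩
  have h1 : (S.F ^ i) ((S.F ^ j) x) = (S.F ^ (i + j)) x := by
    rw [zpow_add]
    rfl
  have h2 : (S.F0 ^ i) ((S.F0 ^ j) z) = (S.F0 ^ (i + j)) z := by
    rw [zpow_add]
    rfl
  rw [h1, h2]
  exact hC _

end Pool.Agent.ANO.Core.Setup
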